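import Pool.Agent.H46.SQ.Targets

/-!
Chinese remainder theorem for `rho`.
-/

set_option autoImplicit false

open Finset

namespace Pool.Agent.H2.SR

open Pool.Agent.H46.SQ

theorem dvd_mod (a r : ℕ) :
    ((a : ℤ) ∣ ((r % a : ℕ) : ℤ) * (((r % a : ℕ) : ℤ) ^ 2 - 2)) ↔
      ((a : ℤ) ∣ (r : ℤ) * ((r : ℤ) ^ 2 - 2)) := by
  have h : ((r % a : ℕ) : ℤ) ≡ (r : ℤ) [ZMOD (a : ℤ)] := by
    rw [Int.natCast_mod]
    exact Int.mod_modEq _ _
  have h2 : ((r % a : ℕ) : ℤ) * (((r % a : ℕ) : ℤ) ^ 2 - 2) ≡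
      (r : ℤ) * ((r : ℤ) ^ 2 - 2) [ZMOD (a : ℤ)] :=
    h.mul ((h.pow 2).sub_right 2)
  exact h2.dvd_iff

theorem sr_MUL : T_MUL := by
  intro a b ha hb hab
  unfold rho
  rw [← Finset.card_product]
  have hI : IsCoprime (a : ℤ) (b : ℤ) := Nat.isCoprime_iff_coprime.mpr hab
  refine Finset.card_bij (fun r _ => (r % a, r % b)) ?_ ?_ ?_
  · intro r hr
    rw [Finset.mem_filter, Finset.mem_range] at hr
    rw [Finset.mem_product, Finset.mem_filter, Finset.mem_filter, Finset.mem_range,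
      Finset.mem_range]
    obtain ⟨h1, h2⟩ := hr
    have h3 : (a : ℤ) ∣ (r : ℤ) * ((r : ℤ) ^ 2 - 2) :=
      Dvd.dvd.trans ⟨(b : ℤ), by push_cast; ring⟩ h2
    have h4 : (b : ℤ) ∣ (r : ℤ) * ((r : ℤ) ^ 2 - 2) :=
      Dvd.dvd.trans ⟨(a : ℤ), by push_cast; ring⟩ h2
    exact ⟨⟨Nat.mod_lt _ ha, (dvd_mod a r).mpr h3⟩, ⟨Nat.mod_lt _ hb, (dvd_mod b r).mpr h4⟩⟩
  · intro r hr s hs h
    rw [Finset.mem_filter, Finset.mem_range] at hr hs
    have h1 : r % a = s % a := congrArg Prod.fst h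
    have h2 : r % b = s % b := congrArg Prod.snd h
    have h3 : r ≡ s [MOD a * b] := (Nat.modEq_and_modEq_iff_modEq_mul hab).mp ⟨h1, h2⟩
    exact Nat.ModEq.eq_of_lt_of_lt h3 hr.1 hs.1
  · intro x hx
    obtain ⟨u, v⟩ := x
    rw [Finset.mem_product, Finset.mem_filter, Finset.mem_filter, Finset.mem_range,
      Finset.mem_range] at hx
    obtain ⟨⟨h1, h2⟩, ⟨h3, h4⟩⟩ := hx
    obtain ⟨r, hr1, hr2⟩ := Nat.chineseRemainder hab u v
    have e1 : (r % (a * b)) % a = u := by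
      rw [Nat.mod_mul_right_mod]
      have := hr1
      unfold Nat.ModEq at this
      rw [this]
      exact Nat.mod_eq_of_lt h1
    have e2 : (r % (a * b)) % b = v := by
      rw [Nat.mod_mul_left_mod]
      have := hr2
      unfold Nat.ModEq at this
      rw [this]
      exact Nat.mod_eq_of_lt h3
    refine ⟨r % (a * b), ?_, ?_⟩
    · rw [Finset.mem_filter, Finset.mem_range]
      refine ⟨Nat.mod_lt _ (Nat.mul_pos ha hb), ?_⟩
      push_cast
      refine hI.mul_dvd ?_ ?_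
      · have := (dvd_mod a (r % (a * b))).mp (by rw [e1]; exact h2)
        push_cast at this
        exact this
      · have := (dvd_mod b (r % (a * b))).mp (by rw [e2]; exact h4)
        push_cast at this
        exact this
    · rw [Prod.mk.injEq]
      exact ⟨e1, e2⟩

end Pool.Agent.H2.SR
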